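import Pool.Agent.Work.MP_959bfa_wn.Interface

/-! # Block COM (helper70) -/

namespace Wn

open Finset

theorem Cr_trans' {ι : Type} {R : ι → Bx} {i j k : ι} (h1 : Cr R i j) (h2 : Cr R j k) :
    Cr R i k :=
  ⟨h2.1.trans h1.1, h1.2.1.trans h2.2.1, h1.2.2.1.trans h2.2.2.1, h2.2.2.2.trans h1.2.2.2⟩

theorem COM : stmt_COM := by
  classical
  intro ι R J m h i j hi hj hNi hNj hC hPV hQH
  obtain ⟨c1, c2, c3, c4⟩ := hC
  have hx1 : (R j).l ≤ (R i).l := c1.le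
  have hx2 : (R i).l ≤ (R j).r := hNi.1.trans c2.le
  have h1 : ∃ y, (R j).b ≤ y ∧ y ≤ (R j).t ∧
      m < (fl J (fun k => In (R k) (R i).l y ∧ ¬ Cr R k j)).card := by
    by_contra hno
    push Not at hno
    exact hPV ⟨(R i).l, hx1, hx2, fun y hy1 hy2 => hno y hy1 hy2⟩
  obtain ⟨y, hy1, hy2, hS⟩ := h1
  have hyi1 : (R i).b ≤ y := c3.le.trans hy1
  have hyi2 : y ≤ (R i).t := hy2.trans c4.le
  have h2 : (fl J (fun k => Cr R i k ∧ (R k).b ≤ y ∧ y ≤ (R k).t)).card ≤ h := by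
    by_contra hno
    push Not at hno
    exact hQH ⟨y, hyi1, hyi2, hno⟩
  have hIi : In (R i) (R i).l y := ⟨le_rfl, hNi.1, hyi1, hyi2⟩
  have hIj : In (R j) (R i).l y := ⟨hx1, hx2, hy1, hy2⟩
  have hCij : Cr R i j := ⟨c1, c2, c3, c4⟩
  have hsub : fl J (fun k => In (R k) (R i).l y ∧ ¬ Cr R k j) ⊆
      fl J (fun k => Cr R i k ∧ (R k).b ≤ y ∧ y ≤ (R k).t) ∪
        fl J (fun k => Nb R i k ∧ Nb R j k) := by
    intro k hk
    rw [mem_fl] at hk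
    obtain ⟨hkJ, hIk, hkj⟩ := hk
    rw [Finset.mem_union, mem_fl, mem_fl]
    by_cases hik : Cr R i k
    · exact Or.inl ⟨hkJ, hik, hIk.2.2.1, hIk.2.2.2⟩
    · right
      refine ⟨hkJ, ⟨?_, ?_, hik, ?_⟩, ⟨?_, ?_, ?_, hkj⟩⟩
      · rintro rfl; exact hkj hCij
      · intro hd; exact hd _ _ ⟨hIi, hIk⟩
      · intro hki; exact hkj (Cr_trans' hki hCij)
      · rintro rfl; exact hik hCij
      · intro hd; exact hd _ _ ⟨hIj, hIk⟩
      · intro hjk; exact hik (Cr_trans' hCij hjk)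
  have h3 := (Finset.card_le_card hsub).trans (Finset.card_union_le _ _)
  omega

end Wn
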