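import Pool.Agent.Work.MP_959bfa_wn.Interface

/-! # Block HALV (helper70) -/

namespace Wn

open Finset

theorem HALV (hCNT : stmt_CNT) (hTAIL : stmt_TAIL) : stmt_HALV := by
  classical
  intro n M κ P ε hsrt hε hε1 hM hκ hsmall
  by_contra hno
  push Not at hno
  -- the sets with at most half of the points
  set G : Finset (Finset (Fin n)) := univ.filter (fun B => 2 * B.card ≤ n) with hG
  set H : Finset (Finset (Fin n)) := univ.filter (fun B => ¬ 2 * B.card ≤ n) with hH
  have hGH : G.card + H.card = 2 ^ n := by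
    have h1 := Finset.card_filter_add_card_filter_not
      (s := (univ : Finset (Finset (Fin n)))) (fun B : Finset (Fin n) => 2 * B.card ≤ n)
    rw [hG, hH, h1]
    simp
  have hHG : H.card ≤ G.card := by
    apply Finset.card_le_card_of_injOn (fun B => Bᶜ)
    · intro B hB
      rw [hH, Finset.mem_coe, Finset.mem_filter] at hB
      rw [hG, Finset.mem_coe, Finset.mem_filter]
      refine ⟨mem_univ _, ?_⟩
      have h1 := Finset.card_add_card_compl B
      rw [Fintype.card_fin] at h1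
      have h2 := hB.2
      change 2 * (Bᶜ).card ≤ n
      omega
    · intro B _ B' _ hBB
      exact compl_injective hBB
  set W : Finset (Finset (Fin n)) := fl univ (fun I => IsPack P M I ∧ M * κ ≤ I.card) with hW
  have hcov : G ⊆ W.biUnion (fun I => fl (univ : Finset (Finset (Fin n)))
      (fun B => ((B ∩ I).card : ℝ) ≤ (1 - ε) * I.card / 2)) := by
    intro B hB
    rw [hG, Finset.mem_filter] at hB
    obtain ⟨Q, hdj, hQ⟩ := hno B hB.2
    set I : Finset (Fin n) := univ.biUnion (fun a : Fin M => inds P (Q a)) with hI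
    have hcard : I.card = ∑ a : Fin M, (inds P (Q a)).card := by
      apply Finset.card_biUnion
      intro a _ b _ hab
      change Disjoint (inds P (Q a)) (inds P (Q b))
      rw [Finset.disjoint_left]
      intro i hia hib
      unfold inds at hia hib
      rw [mem_fl] at hia hib
      exact hdj a b hab _ _ ⟨hia.2, hib.2⟩
    have hMκ : M * κ ≤ I.card := by
      rw [hcard]
      calc M * κ = ∑ _a : Fin M, κ := by simp
        _ ≤ _ := Finset.sum_le_sum fun a _ => (hQ a).1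
    have hB2 : ((B ∩ I).card : ℝ) ≤ (1 - ε) * I.card / 2 := by
      have h1 : B ∩ I ⊆ univ.biUnion (fun a : Fin M => inds P (Q a) ∩ B) := by
        intro i hi
        rw [Finset.mem_inter, hI, Finset.mem_biUnion] at hi
        obtain ⟨hiB, a, ha, hia⟩ := hi
        exact Finset.mem_biUnion.2 ⟨a, ha, Finset.mem_inter.2 ⟨hia, hiB⟩⟩
      have h2 : ((B ∩ I).card : ℝ) ≤ ∑ a : Fin M, ((inds P (Q a) ∩ B).card : ℝ) := by
        have h3 := (Finset.card_le_card h1).trans Finset.card_biUnion_le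
        exact_mod_cast h3
      have h4 : ∑ a : Fin M, ((inds P (Q a) ∩ B).card : ℝ) ≤ ∑ _a : Fin M, (1 - ε) * κ / 2 :=
        Finset.sum_le_sum fun a _ => (hQ a).2.le
      have h5 : ∑ _a : Fin M, (1 - ε) * (κ : ℝ) / 2 = (1 - ε) * (M * κ) / 2 := by
        rw [Finset.sum_const, Finset.card_univ, Fintype.card_fin, nsmul_eq_mul]
        ring
      have h6 : ((M : ℝ) * κ) ≤ I.card := by exact_mod_cast hMκ
      have h7 : 0 ≤ 1 - ε := by linarith
      have h8 : (1 - ε) * ((M : ℝ) * κ) ≤ (1 - ε) * I.card := mul_le_mul_of_nonneg_left h6 h7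
      linarith
    refine Finset.mem_biUnion.2 ⟨I, ?_, mem_fl.2 ⟨mem_univ _, hB2⟩⟩
    rw [hW, mem_fl]
    refine ⟨mem_univ _, ⟨Q, hdj, ?_, ?_⟩, hMκ⟩
    · intro a
      apply Finset.card_pos.1
      have := (hQ a).1
      omega
    · intro i
      rw [hI, Finset.mem_biUnion]
      exact ⟨fun ⟨a, _, ha⟩ => ⟨a, ha⟩, fun ⟨a, ha⟩ => ⟨a, mem_univ _, ha⟩⟩
  have hWcard : W.card ≤ ∑ j ∈ range (4 * M + 1), n.choose j * 8 ^ j := by
    refine le_trans (Finset.card_le_card ?_) (hCNT n M P hsrt)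
    intro I hI
    rw [hW, mem_fl] at hI
    exact mem_fl.2 ⟨mem_univ _, hI.2.1⟩
  have hG1 : (G.card : ℝ) ≤ ∑ I ∈ W, (2 ^ n * Real.exp (-(ε ^ 2 * (M * κ) / 2)) : ℝ) := by
    have h1 := (Finset.card_le_card hcov).trans Finset.card_biUnion_le
    have h2 : (G.card : ℝ) ≤ ∑ I ∈ W, ((fl (univ : Finset (Finset (Fin n)))
      (fun B => ((B ∩ I).card : ℝ) ≤ (1 - ε) * I.card / 2)).card : ℝ) := by exact_mod_cast h1
    refine h2.trans (Finset.sum_le_sum fun I hI => ?_)
    refine (hTAIL n I ε hε.le hε1).trans ?_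
    rw [hW, mem_fl] at hI
    have h6 : ((M : ℝ) * κ) ≤ I.card := by exact_mod_cast hI.2.2
    apply mul_le_mul_of_nonneg_left _ (by positivity)
    apply Real.exp_le_exp.2
    have h7 : ε ^ 2 * ((M : ℝ) * κ) ≤ ε ^ 2 * I.card := mul_le_mul_of_nonneg_left h6 (by positivity)
    linarith
  rw [Finset.sum_const, nsmul_eq_mul] at hG1
  have hWr : (W.card : ℝ) ≤ ((∑ j ∈ range (4 * M + 1), n.choose j * 8 ^ j : ℕ) : ℝ) := by
    exact_mod_cast hWcard
  have hexp : 0 < Real.exp (-(ε ^ 2 * (M * κ) / 2)) := Real.exp_pos _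
  have h2n : (0 : ℝ) < 2 ^ n := by positivity
  have hG2 : (G.card : ℝ) < 2 ^ n / 2 := by
    calc (G.card : ℝ) ≤ W.card * (2 ^ n * Real.exp (-(ε ^ 2 * (M * κ) / 2))) := hG1
      _ ≤ ((∑ j ∈ range (4 * M + 1), n.choose j * 8 ^ j : ℕ) : ℝ) *
          (2 ^ n * Real.exp (-(ε ^ 2 * (M * κ) / 2))) :=
        mul_le_mul_of_nonneg_right hWr (by positivity)
      _ = 2 ^ n * (((∑ j ∈ range (4 * M + 1), n.choose j * 8 ^ j : ℕ) : ℝ) *
          Real.exp (-(ε ^ 2 * (M * κ) / 2))) := by ring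
      _ < 2 ^ n * (1 / 2) := mul_lt_mul_of_pos_left hsmall h2n
      _ = 2 ^ n / 2 := by ring
  have h3 : (2 : ℝ) ^ n ≤ 2 * G.card := by
    have h4 : 2 ^ n ≤ 2 * G.card := by omega
    exact_mod_cast h4
  linarith

end Wn
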